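import Pool.Agent.R869.SLoc
import Pool.Agent.R869.UCor
import Pool.Agent.R869.WEx2
import Pool.Agent.R869.XSets

/-!
MP_160ed4_ag, Q1: the five conditions of the generalised Green-Griffiths-Lang conjecture for the
complements `V ∖ {H_1 ⋯ H_q = 0}` of arbitrary hypersurfaces in arbitrary irreducible components `V`
of projective varieties, where the equations of the variety and of the boundary are any linear
combinations of the powers `x_j ^ d` and of `s` further monomials of degree `d`, in given sets of
variables, for almost all choices of these monomials; the coincidence of the special sets of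
`Y = {F = 0} ∖ {H_1 ⋯ H_q = 0}`, which are swept out by finitely many one-parameter groups, that only
depend on the monomials; their location if the boundary consists of coordinate hyperplanes, and, for
hypersurfaces (with arbitrary coefficients), a necessary and sufficient criterion for the existence of
entire curves on which given coordinates vanish identically.

`LgtX d H w y`, `PtsX H y` (`Pool/Agent/R869/XFourDefs.lean`): `X = V ∖ {H = 0}` is of log general type,
where `V` is the projective variety with generic point `y`, of dimension `w`, and the `H l` are forms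
of degree `d`; the set of the points of `X`. `ClIn T A`, `EntU T`, `DiscU T`, `GmU T`, `CgU T`,
`AlgU d H y` (`XSpec.lean`, `XCg.lean`): the Zariski closure of `A` in `T`; the unions of the images of
the entire curves in `T`, of the holomorphic maps from the punctured disc to `T` which do not extend,
of the nonconstant morphisms from the multiplicative group to `T`, and of the nonconstant meromorphic
maps from the `ℂ ^ g` which are holomorphic maps to `T` outside a set of codimension at least two; the
union of the closed subvarieties of `X` of positive dimension which are not of log general type.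
`PtsY F H`, `AlgY d F H`, `OrbY F H B` (`XSets.lean`): the points of `Y = {F = 0, H ≠ 0}`; the union of
the closed subvarieties of `Y` of positive dimension which are not of log general type; the union of
the nonconstant orbits in `Y` of the one-parameter groups given by the elements of `B`.
`Wide U F N` (`Pool/Agent/R869/WDefs.lean`): whenever at most `n` pairs of exponent vectors of the
forms, in the variables of a set `I`, are such that the sum of the segments between them has positive
width in all directions, this sum has width at least `N` in all directions that are minimal on `U`.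
`TuplesIn I d`, `AlmostAllIn I P`, `Spread I m J` (`SDefs.lean`): the tuples of exponent vectors of
degree `d`, the `i`-th one of a monomial in the variables from `I i`; the proportion of the tuples
with the property `P` tends to `1` for `d → ∞`; for all colourings of the variables which are not
constant on `J`, `∑ min (m + 1) (a v + b v) ≤ m (N + 2) + 1`, the sum over the colours `v` on `J`,
where `a v` and `b v` are the numbers of the variables from `J` and of the sets `I i ⊆ J` with the
colour `v`, and `N` is the number of the sets `I i ⊆ J` with different colours. `withPowers`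
(`WDensDefs.lean`): the set of the exponent vectors `a i` and of those of the `x_j ^ d`.
`Loose F J` (`USharpDefs.lean`): `F` does not have exactly one monomial in the variables from `J`, and
there is a colouring of the variables with `V ≥ 2` colours on `J` such that `N + D + 4 ≤ 2 V`, where
`N` is the number of the monomials of `F` in the variables from `J` whose variables have different
colours, and `D` is the number of the colours on `J` for which exactly one monomial of `F` in the
variables from `J` has all its variables of this colour.
`GenCoeffs F T` (`WGen.lean`): the coefficient vectors of the `m` forms `F e` at any `m` elements of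
`T` are linearly independent (all coefficients are nonzero, if `m = 1`). `chainLoop c σ d` (`WEx2`):
the form `∑ c_i x_i ^ (d - 1) x_(σ i)`.
The other notions are those of the starting repository: `IsForm`, `SubVar` (`Pool/Agent/W602/GT`), the
function fields and generic points of the closed subvarieties of `{F = 0}`, `IsComponent`, those which
are irreducible components; `Pts U F`, `EntireCurve`, `Irred` (`Pool/Agent/H159R3/GGL/Log.lean`),
`SpH`, `SpT` (`Pool/Agent/H159R3/GGL/LogSpecial.lean`), `SpP` (`Pool/Agent/W603/BP/PS.lean`), `SpCg`
(`Pool/Agent/Y190/AN/Cg.lean`): the points of `X = {F = 0, x_j ≠ 0 for j in U}`, and the Zariski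
closures in `X` of the unions of the images of the entire curves, of the morphisms from the
multiplicative group, of the holomorphic maps from the punctured disc with an essential singularity,
and of the nonconstant meromorphic maps from the `ℂ ^ g` which are holomorphic outside a set of
codimension at least two; `SubVarU`, `OffU`, `SpAlgU` (`Pool/Agent/W602/GT/PsDefs.lean`), `GenericU`
(`Pool/Agent/W602/GT/PsFin.lean`): the closed subvarieties of `X`, the places over the boundary, the
Zariski closure of the union of the closed subvarieties of positive dimension which are not of log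
general type, and the generic point of `X`.
-/

set_option autoImplicit false

namespace Pool.Agent.Results.MP_160ed4_ag.AlmostAllMonomials

open MvPolynomial Pool.Agent.W602.GT Pool.Agent.H159R3.GGLLog Pool.Agent.W603.BP
  Pool.Agent.Y190.AN Pool.Agent.R869.Wd

/-- For the irreducible components `V` of positive dimension of the projective variety `{F = 0}`
which are not contained in one of the hypersurfaces `H l = 0`, the following conditions for
`X = V ∖ {H = 0}` are equivalent: `X` is of log general type; the special set `Sp_alg(X)` is not `X`;
`Sp_p(X)` is not `X`; `Sp_h(X)` is not `X`; the special set given by the multiplicative group is not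
`X`; the special set given by the spaces `ℂ ^ g` is not `X` (`Sp_sab(X)` lies between the last two). -/
def FiveConditions {n m q : ℕ} (d : ℕ) (F : Fin m → MvPolynomial (Fin (n + 1)) ℂ)
    (H : Fin q → MvPolynomial (Fin (n + 1)) ℂ) : Prop :=
  ∀ (K : Type) [Field K] [Algebra ℂ K] (w : ℕ) (y : Fin (n + 1) → K), 1 ≤ w →
    SubVar F K w y → IsComponent F y → (∀ l, val y (H l) ≠ 0) →
    [LgtX d H w y,
      ClIn (PtsX H y) (AlgU d H y) ≠ PtsX H y,
      ClIn (PtsX H y) (DiscU (PtsX H y)) ≠ PtsX H y,
      ClIn (PtsX H y) (EntU (PtsX H y)) ≠ PtsX H y,
      ClIn (PtsX H y) (GmU (PtsX H y)) ≠ PtsX H y,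
      ClIn (PtsX H y) (CgU (PtsX H y)) ≠ PtsX H y].TFAE

/-- The special sets `Sp_alg`, `Sp_p` and `Sp_h` of `Y = {F = 0, H ≠ 0}`, and the special sets given by
the multiplicative group and by the spaces `ℂ ^ g` (so also `Sp_sab`, which lies between them)
coincide: all of them are the closure of the union of the nonconstant orbits in `Y` of the
one-parameter groups given by the elements of `B`. -/
def SpecialSets {n m q : ℕ} (d : ℕ) (B : Finset (Fin (n + 1) → ℤ))
    (F : Fin m → MvPolynomial (Fin (n + 1)) ℂ) (H : Fin q → MvPolynomial (Fin (n + 1)) ℂ) : Prop :=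
  ClIn (PtsY F H) (AlgY d F H) = ClIn (PtsY F H) (OrbY F H B) ∧
  ClIn (PtsY F H) (DiscU (PtsY F H)) = ClIn (PtsY F H) (OrbY F H B) ∧
  ClIn (PtsY F H) (EntU (PtsY F H)) = ClIn (PtsY F H) (OrbY F H B) ∧
  ClIn (PtsY F H) (GmU (PtsY F H)) = ClIn (PtsY F H) (OrbY F H B) ∧
  ClIn (PtsY F H) (CgU (PtsY F H)) = ClIn (PtsY F H) (OrbY F H B)

/-- The special sets `Sp_alg`, `Sp_p` and `Sp_h` of `X = {F = 0, x_j ≠ 0 for j in U}`, and the special
sets given by the multiplicative group and by the spaces `ℂ ^ g` (so also `Sp_sab`, which lies
between them) coincide. -/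
def SetsCoincide {n : ℕ} {ι : Type} (U : Set (Fin (n + 1)))
    (F : ι → MvPolynomial (Fin (n + 1)) ℂ) : Prop :=
  SpAlgU U F = SpH U F ∧ SpP U F = SpH U F ∧ SpT U F = SpH U F ∧ SpCg U F = SpH U F

/-- For all sets `J` of variables: there is an entire curve in the hypersurface
`{F = 0, x_j ≠ 0 for j in U}` on which exactly the coordinates outside `J` vanish identically if and
only if `J` contains `U` and is loose for `F`; the special set of this hypersurface lies in the union of
the coordinate subspaces given by these `J`. -/
def LooseCriterion {n : ℕ} (U : Set (Fin (n + 1))) (F : MvPolynomial (Fin (n + 1)) ℂ) : Prop :=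
  (∀ J : Finset (Fin (n + 1)),
    (∃ f, EntireCurve U (fun _ : Fin 1 => F) f ∧ ∀ j, (∃ z, f z j ≠ 0) ↔ j ∈ J) ↔
      (∀ j ∈ U, j ∈ J) ∧ Loose F J) ∧
  ∀ x ∈ SpH U (fun _ : Fin 1 => F), ∃ J : Finset (Fin (n + 1)),
    Loose F J ∧ (∀ j ∈ U, j ∈ J) ∧ ∀ j, x j ≠ 0 → j ∈ J

/-- The special sets `Sp_alg`, `Sp_p` and `Sp_h` of `X = {F = 0, x_j ≠ 0 for j in U}`, and the special
sets given by the multiplicative group and by the spaces `ℂ ^ g` (so also `Sp_sab`, which lies
between them) coincide; if `X` is irreducible of positive dimension, it is of log general type if and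
only if these sets are not the whole of `X`. -/
def FiveConditionsU {n : ℕ} {ι : Type} (U : Set (Fin (n + 1)))
    (F : ι → MvPolynomial (Fin (n + 1)) ℂ) : Prop :=
  (SpAlgU U F = SpH U F ∧ SpP U F = SpH U F ∧ SpT U F = SpH U F ∧ SpCg U F = SpH U F) ∧
  ∀ (K : Type) [Field K] [Algebra ℂ K] (w : ℕ) (y : Fin (n + 1) → K), 1 ≤ w →
    SubVarU U F K w y → GenericU U F y → Irred U F →
    [LogGeneralType ℂ K w (OffU U y), SpAlgU U F ≠ Pts U F, SpP U F ≠ Pts U F,
      SpH U F ≠ Pts U F, SpT U F ≠ Pts U F, SpCg U F ≠ Pts U F].TFAE

theorem fiveConditions_of {n : ℕ} {ι : Type} [Finite ι] {U : Set (Fin (n + 1))}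
    {F : ι → MvPolynomial (Fin (n + 1)) ℂ} {s N : ℕ} (hC : Sys U F s N) : FiveConditionsU U F := by
  obtain ⟨h1, h2⟩ := five' hC
  exact ⟨h1, fun K _ _ w y hw hy hgen hirr => h2 inferInstance K w y hw hy hgen hirr⟩

/-- The assumptions of `wide_systems` hold for the systems of forms with at most `s` monomials in
which the exponents of the variables outside `U` are divisible by a large number. -/
theorem divisible {n : ℕ} {ι : Type} {U : Set (Fin (n + 1))}
    {F : ι → MvPolynomial (Fin (n + 1)) ℂ} {s N : ℕ} (hF : ∀ e, IsPowSparse U s N (F e)) :
    (∀ e, IsForm (F e)) ∧ (∀ e, (F e).support.card ≤ s) ∧ Wide U F N :=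
  ⟨fun e => (hF e).1, fun e => (hF e).2.1, wide_of_powSparse hF⟩

/-- The assumptions of `wide_systems` hold for all forms of large degree `d` in which different
monomials are dominated by different variables: each monomial has degree at most `δ` in the variables
other than its dominating variable. -/
theorem hypersurface {n : ℕ} (U : Set (Fin (n + 1))) {F : MvPolynomial (Fin (n + 1)) ℂ} {d δ : ℕ}
    (hd : F.IsHomogeneous d) (hF : Dominated F δ)
    (hN : 2 * δ + n * ((n + 1) * (n * (n - 1) / 2)) < d) :
    F.support.card ≤ n + 1 ∧ Wide U (fun _ : Unit => F) (d - 2 * δ) ∧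
      n * ((n + 1) * (n * (n - 1) / 2)) < d - 2 * δ :=
  ⟨card_of_dominated hF, wide_of_dominated hd hF (by omega) (by omega), by omega⟩

/-- Let `I 1, …, I s` be nonempty sets of variables. For almost all tuples of monomials of degree `d`
in `n + 1` variables, the `i`-th one in the variables from `I i`, the following holds.

(1) Let `q` be a natural number. For almost all tuples there is a finite set `B` of one-parameter
groups such that `FiveConditions d F H` and `SpecialSets d B F H` for all `m` and all linear
combinations `F 1, …, F m`, `H 1, …, H q` of these monomials and of the `x_j ^ d`.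

(2) For almost all tuples and all `U`, the special sets of `X = {F = 0, x_j ≠ 0 for j in U}`, where
the `F e` are `m` linear combinations of these monomials and of the `x_j ^ d`, coincide. For the
hypersurfaces `{F = 0}` given by a linear combination `F` of these monomials and of the `x_j ^ d`, with
arbitrary coefficients, and all `U`, `J`, there is an entire curve in `{F = 0, x_j ≠ 0 for j in U}` on
which exactly the coordinates outside `J` vanish identically if and only if `J` contains `U` and is
loose for `F` (`LooseCriterion`). If any `m` of the coefficient vectors are linearly independent, the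
special sets lie in the union of the coordinate subspaces given by the sets of variables which contain
`U` and on which the `I i` are not well spread with respect to `m`.

(3) The `I i` are well spread, with respect to `m`, on all sets of variables (and the special sets are
empty) if all sets of `2 m + 2` variables are among the `I i`, `m ≥ 1`, and all `I i` have at least
`m + 1` elements. -/
theorem result :
    (∀ (n s q : ℕ) (I : Fin s → Finset (Fin (n + 1))), (∀ i, (I i).Nonempty) →
      AlmostAllIn I fun d a => ∃ B : Finset (Fin (n + 1) → ℤ), ∀ (m : ℕ)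
        (F : Fin m → MvPolynomial (Fin (n + 1)) ℂ) (H : Fin q → MvPolynomial (Fin (n + 1)) ℂ),
        (∀ e, (F e).support ⊆ withPowers d a) → (∀ l, (H l).support ⊆ withPowers d a) →
        FiveConditions d F H ∧ SpecialSets d B F H) ∧
    (∀ (n s : ℕ) (I : Fin s → Finset (Fin (n + 1))), (∀ i, (I i).Nonempty) →
      AlmostAllIn I fun d a => (∀ (m : ℕ) (F : Fin m → MvPolynomial (Fin (n + 1)) ℂ)
        (U : Set (Fin (n + 1))), (∀ e, (F e).support ⊆ withPowers d a) →
        SetsCoincide U F ∧ (GenCoeffs F (withPowers d a) → ∀ x ∈ SpH U F,
          ∃ J : Finset (Fin (n + 1)), ¬ Spread I m J ∧ (∀ j ∈ U, j ∈ J) ∧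
            ∀ j, x j ≠ 0 → j ∈ J)) ∧
        ∀ (F : MvPolynomial (Fin (n + 1)) ℂ) (U : Set (Fin (n + 1))),
          F.support ⊆ withPowers d a → LooseCriterion U F) ∧
    (∀ (n m s : ℕ) (I : Fin s → Finset (Fin (n + 1))), 1 ≤ m → (∀ i, m + 1 ≤ (I i).card) →
      (∀ A : Finset (Fin (n + 1)), A.card = 2 * m + 2 → ∃ i, I i = A) → ∀ J, Spread I m J) := by
  classical
  refine ⟨?_, ?_, fun n m s I hm hI hall => spread_all hm hI hall⟩
  · intro n s q I hI
    refine (almost_lift (q := q) (almost_typI (liftI_nonempty hI) fun d a h => h)).mono
      fun d a ha h => ?_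
    obtain ⟨B, hB⟩ := exists_dirs (fun _ : Unit => withPowers d a)
    have hB' : ∀ b : Fin (n + 1) → ℤ, ∃ b' ∈ B,
        (∀ j l, b j = b l ↔ b' j = b' l) ∧ ∀ α ∈ withPowers d a, ∀ α' ∈ withPowers d a,
          (∑ j, (α j : ℤ) * b j = ∑ j, (α' j : ℤ) * b j ↔
            ∑ j, (α j : ℤ) * b' j = ∑ j, (α' j : ℤ) * b' j) := fun b => by
      obtain ⟨b', h1, h2, h3⟩ := hB b
      exact ⟨b', h1, h2, h3 ()⟩
    exact ⟨B, fun m F H hF hH => ⟨fun K _ _ w y hw hy hcomp hHy =>
      special_pairs h.pos h.good (fun i => (ha i).2) hF hH hw hy hcomp hHy,
      sets_pairs h.pos h.good (fun i => (ha i).2) hB' hF hH⟩⟩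
  · intro n s I hI
    refine almost_typI hI fun d a hty => ⟨fun m F U hFT => ?_, fun F U hF =>
      ⟨hty.critJ hF U, fun x hx => hty.special1 hF hx⟩⟩
    obtain ⟨s', N, hg⟩ := hty.good
    exact ⟨(fiveConditions_of (hg.sys hFT U)).1, fun hgc x hx => hty.special hFT hgc hx⟩

/-- **Wide systems.** Let the system of finitely many forms `F e` with at most `s` monomials be
`N`-wide relative to `U` with `N > n s (s - 1) (s - 2) / 2`. Then `FiveConditionsU U F` holds. -/
theorem wide_systems : ∀ (n s N : ℕ) (ι : Type) [Finite ι] (U : Set (Fin (n + 1)))
      (F : ι → MvPolynomial (Fin (n + 1)) ℂ), 1 ≤ s → (∀ e, IsForm (F e)) →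
      (∀ e, (F e).support.card ≤ s) → Wide U F N → n * (s * ((s - 1) * (s - 2) / 2)) < N →
      FiveConditionsU U F := by
  have hnum : ∀ {n s N : ℕ}, n * (s * ((s - 1) * (s - 2) / 2)) < N →
      s * (n * Pool.Agent.R869.tri (s - 1)) < N := by
    intro n s N hN
    rw [tri_choose]
    refine lt_of_le_of_lt (le_of_eq ?_) hN
    ring
  exact fun n s N ι _ U F hs hF hc hW hN => fiveConditions_of ⟨hF, hs, hc, hW, hnum hN⟩

/-- **Chain and loop type.** The special sets coincide, and the five conditions are equivalent, for the
hypersurfaces `∑ c_i x_i ^ (d - 1) x_(σ i) = 0`, `d > 2 + n ^ 2 (n ^ 2 - 1) / 2`, and their open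
parts. -/
theorem chain_loop (n d : ℕ) (c : Fin (n + 1) → ℂ) (σ : Fin (n + 1) → Fin (n + 1))
    (U : Set (Fin (n + 1))) (hd : 3 ≤ d) (hN : 2 + n * ((n + 1) * (n * (n - 1) / 2)) < d) :
    FiveConditionsU U fun _ : Unit => chainLoop c σ d := by
  have h1 := chainLoop_hom c σ (d := d) (by omega)
  obtain ⟨h2, h3, h4⟩ := hypersurface U h1 (chainLoop_dominated c σ hd) (by omega)
  exact wide_systems n (n + 1) (d - 2 * 1) Unit U _ (by omega) (fun _ => ⟨d, h1⟩) (fun _ => h2) h3
    (by
      rw [show n + 1 - 1 = n by omega, show n + 1 - 2 = n - 1 by omega]
      exact h4)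

end Pool.Agent.Results.MP_160ed4_ag.AlmostAllMonomials
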