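import Mathlib
import Pool.Agent.R869.BTop
import Pool.Agent.R869.CMain
import Pool.Agent.R869.Thin
import Pool.Agent.TH143.GT.Fin

/-!
MP_160ed4_ag, Q1: the five conditions of the generalised Green-Griffiths-Lang conjecture for
quasi-projective varieties with a relation `a_1 b_1 ^ N_1 + ... + a_s b_s ^ N_s = 0` between high
powers with arbitrary cofactors.

The function-field language of the starting repository is used: `IsHomog p`
(`Pool/Agent/W603/PV/Main.lean`): the ideal is homogeneous; `FunField p Q K w y`
(`Pool/Agent/TH143/GT/Fin.lean`): `K` is the function field and `y` the generic point of the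
quasi-projective variety `X` in `P^n` with the ideal `p` and the boundary `Q = 0`; `val y G`,
`coords` (`Pool/Agent/W602/GT/SpDefs.lean`): the value of a form at `y`, and the field generated by
the ratios of the coordinates; `LogGeneralType ℂ K w (OffQ Q q y)` (`Pool/Agent/W602/GT/Defs.lean`,
`Pool/Agent/W603/GR/Main.lean`): the varieties with function field `K` and with boundary over
`Q = 0` are of log general type; `PtsP`, `PCurve`, `EntireCurve` (`Pool/Agent/W603/BP/RMain.lean`):
the points of `X`, the holomorphic maps from the punctured disc to `X`, and the nonconstant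
holomorphic maps from the complex line to `X`; `Extends` (`Pool/Agent/W603/BP/Extn.lean`): the map
extends to a holomorphic map from the disc to `P^n`. `CoRel`, `CoRel.R` and `CoRel.Large` are defined
in `Pool/Agent/R869/CoDefs.lean`, `Thin` in `Pool/Agent/R869/ThinDefs.lean`.
-/

set_option autoImplicit false

namespace Pool.Agent.Results.MP_160ed4_ag.CofactorRelations

open MvPolynomial Metric Set Pool.Agent.W602.GT Pool.Agent.W603.BP Pool.Agent.W603.BPR
  Pool.Agent.W603.GR Pool.Agent.W603.PV Pool.Agent.TH143.GT Pool.Agent.R869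

/-- An example: the complement in `P^n` of the hypersurface `a_1 b_1 ^ N_1 + ... + a_s b_s ^ N_s = 0`
has a relation with cofactors, for all forms `a_j` and all nonconstant forms `b_j` without common
zeros such that all terms have the same degree and no partial sum vanishes identically. -/
theorem complement {n s : ℕ} (a b : Fin s → MvPolynomial (Fin (n + 1)) ℂ)
    (N δ m : Fin s → ℕ) (e N0 : ℕ) (ha : ∀ l, (a l).IsHomogeneous (δ l))
    (hb : ∀ l, (b l).IsHomogeneous (m l)) (hm : ∀ l, 0 < m l) (hdeg : ∀ l, δ l + N l * m l = e)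
    (hbase : ∀ x : Fin (n + 1) → ℂ, x ≠ 0 → ∃ l, eval x (b l) ≠ 0)
    (hno : ∀ S : Finset (Fin s), S.Nonempty → ∑ l ∈ S, a l * b l ^ N l ≠ 0) :
    ∃ C : CoRel (⊥ : Ideal (MvPolynomial (Fin (n + 1)) ℂ)) (∑ l, a l * b l ^ N l) e
      (Option (Fin s)), (∀ l, C.a (some l) = a l ∧ C.b (some l) = b l ∧ C.N (some l) = N l ∧
        C.δ (some l) = δ l) ∧ C.N none = N0 ∧ C.δ none = 0 := by
  classical
  set F := ∑ l, a l * b l ^ N l with hF
  have hterm : ∀ l, (a l * b l ^ N l).IsHomogeneous e := fun l => by
    have := (ha l).mul ((hb l).pow (N l))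
    rwa [mul_comm (m l), hdeg l] at this
  have hFh : F.IsHomogeneous e := IsHomogeneous.sum _ _ _ fun l _ => hterm l
  -- the sum over a set of indices
  have hsum : ∀ S : Finset (Option (Fin s)), ∑ l ∈ S,
      (l.elim (-1) a) * (l.elim F fun _ => 1) * (l.elim 1 b) ^ (l.elim N0 N) =
      (if none ∈ S then -F else 0) + ∑ l ∈ S.eraseNone, a l * b l ^ N l := by
    intro S
    have h1 : ∑ l ∈ S, (l.elim (-1) a) * (l.elim F fun _ => 1) *
        (l.elim (1 : MvPolynomial (Fin (n + 1)) ℂ) b) ^ (l.elim N0 N) =
        ∑ l : Option (Fin s), if l ∈ S then (l.elim (-1) a) * (l.elim F fun _ => 1) *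
          (l.elim (1 : MvPolynomial (Fin (n + 1)) ℂ) b) ^ (l.elim N0 N) else 0 := by
      rw [Finset.sum_ite_mem, Finset.univ_inter]
    rw [h1, Fintype.sum_option]
    congr 1
    · simp
    · rw [← Finset.sum_filter]
      refine Finset.sum_congr ?_ fun l _ => ?_
      · ext l
        simp
      · simp
  refine ⟨{ a := fun l => l.elim (-1) a
            u := fun l => l.elim F fun _ => 1
            b := fun l => l.elim 1 b
            N := fun l => l.elim N0 N
            δ := fun l => l.elim 0 δ
            d := fun l => l.elim e fun _ => 0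
            m := fun l => l.elim 0 m
            e := e
            J1 := Finset.univ.image some
            homa := ?_
            homu := ?_
            homb := ?_
            deg := ?_
            unit := ?_
            one := ?_
            pos := ?_
            base := ?_
            rel := ?_
            no := ?_ }, fun l => ⟨rfl, rfl, rfl, rfl⟩, rfl, rfl⟩
  · rintro (_ | l)
    · have h1 := (isHomogeneous_one (Fin (n + 1)) ℂ).neg
      exact h1
    · exact ha l
  · rintro (_ | l)
    · exact hFh
    · exact isHomogeneous_one _ _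
  · rintro (_ | l)
    · exact isHomogeneous_one _ _
    · exact hb l
  · rintro (_ | l)
    · simp
    · simpa using hdeg l
  · rintro (_ | l)
    · exact ⟨1, 0, 1, isHomogeneous_one _ _, by simp, by simp⟩
    · exact ⟨1, 0, 0, isHomogeneous_one _ _, by simp, by simp⟩
  · rintro l hl
    rw [Finset.mem_image] at hl
    obtain ⟨l', _, rfl⟩ := hl
    rfl
  · rintro l hl
    rw [Finset.mem_image] at hl
    obtain ⟨l', _, rfl⟩ := hl
    exact hm l'
  · intro x hx _
    obtain ⟨l, hl⟩ := hbase x hx
    exact ⟨some l, Finset.mem_image.2 ⟨l, Finset.mem_univ l, rfl⟩, hl⟩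
  · rw [Ideal.mem_bot]
    refine (hsum Finset.univ).trans ?_
    have : (Finset.univ : Finset (Option (Fin s))).eraseNone = Finset.univ := by
      ext l
      simp
    rw [this]
    simp [hF]
  · intro S hS hS' h0
    rw [Ideal.mem_bot] at h0
    have h1 := (hsum S).symm.trans h0
    by_cases hn : none ∈ S
    · rw [if_pos hn] at h1
      have h2 : (Finset.univ \ S.eraseNone).Nonempty := by
        rw [Finset.sdiff_nonempty]
        intro h3
        apply hS'
        ext l
        rcases l with _ | l
        · simpa using hn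
        · have h4 := h3 (Finset.mem_univ l)
          simpa using h4
      apply hno _ h2
      have h3 : ∑ l ∈ Finset.univ \ S.eraseNone, a l * b l ^ N l +
          ∑ l ∈ S.eraseNone, a l * b l ^ N l = F := Finset.sum_sdiff (Finset.subset_univ _)
      linear_combination h3 - h1
    · rw [if_neg hn, zero_add] at h1
      apply hno _ _ h1
      obtain ⟨l, hl⟩ := hS
      rcases l with _ | l
      · exact absurd hl hn
      · exact ⟨l, by simpa using hl⟩

/-- Let `X` be the quasi-projective variety in `P^n` with the homogeneous prime ideal `p` and the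
boundary `Q = 0`, with a relation with cofactors `C` such that the cofactors have degree at most `δ`
and the exponents are at least `s ^ 4 * (δ + 1)`, where `s` is the number of terms. Let `R` be the
product of the proper partial sums of the relation, a form which does not vanish on `X`. Then:

(1) `X` is of log general type;

(2) all closed subvarieties of positive dimension of `X` which are not contained in `R = 0`, and all
varieties with a generically finite map onto such a subvariety, with the inverse image of the
boundary as boundary, are of log general type;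

(3) all holomorphic maps from the punctured disc to `X` with image not contained in `R = 0` extend to
the disc;

(4) all nonconstant holomorphic maps from the complex line to `X` have image in `R = 0`;

(5) so do all nonconstant holomorphic maps to `X` from complements of thin closed sets in complex
affine spaces, and therefore all nonconstant rational maps from semi-abelian varieties to `X` which
are regular outside a subset of codimension at least two.

So the five conditions hold for `X`. -/
theorem result {n : ℕ} {J : Type} [Fintype J] {p : Ideal (MvPolynomial (Fin (n + 1)) ℂ)}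
    [p.IsPrime] {Q : MvPolynomial (Fin (n + 1)) ℂ} {q δ : ℕ} (hp : IsHomog p)
    (hQ : Q.IsHomogeneous q) (C : CoRel p Q q J) (hC : C.Large δ) :
    IsForm C.R ∧ C.R ∉ p ∧
    (∀ (K : Type) [Field K] [Algebra ℂ K] (w : ℕ) (y : Fin (n + 1) → K), 1 ≤ w →
      FunField p Q K w y → LogGeneralType ℂ K w (OffQ Q q y)) ∧
    (∀ (K : Type) [Field K] [Algebra ℂ K] (w : ℕ) (y : Fin (n + 1) → K), 1 ≤ w →
      Algebra.trdeg ℂ K = w → Algebra.EssFiniteType ℂ K → Algebra.IsAlgebraic (coords ℂ y) K →
      y ≠ 0 → (∀ H ∈ p, val y H = 0) → val y Q ≠ 0 → val y C.R ≠ 0 →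
      LogGeneralType ℂ K w (OffQ Q q y)) ∧
    (∀ f, PCurve p Q f → (∃ z ∈ ball (0 : ℂ) 1 \ {0}, eval (f z) C.R ≠ 0) → Extends f) ∧
    (∀ f, EntireCurve p Q f → ∀ z, eval (f z) C.R = 0) ∧
    ∀ (g : ℕ) (Z : Set (Fin g → ℂ)) (φ : (Fin g → ℂ) → Fin (n + 1) → ℂ), Thin Z →
      DifferentiableOn ℂ φ Zᶜ → (∀ z ∉ Z, φ z ∈ PtsP p Q) →
      (∃ z ∉ Z, ∃ w ∉ Z, ∀ c : ℂ, φ z ≠ c • φ w) → ∀ z ∉ Z, eval (φ z) C.R = 0 := by
  have h2 : ∀ (K : Type) [Field K] [Algebra ℂ K] (w : ℕ) (y : Fin (n + 1) → K), 1 ≤ w →
      Algebra.trdeg ℂ K = w → Algebra.EssFiniteType ℂ K → Algebra.IsAlgebraic (coords ℂ y) K →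
      y ≠ 0 → (∀ H ∈ p, val y H = 0) → val y Q ≠ 0 → val y C.R ≠ 0 →
      LogGeneralType ℂ K w (OffQ Q q y) := by
    intro K _ _ w y hw htr hfg halg hy0 hy hyQ hyR
    exact C.lgt hp hQ hC.1 (fun l => (Nat.pos_iff_ne_zero.1 (hC.pos l))) hC.LLs_le
      (fun l => (hC.2 l).1) (hC.num (C.J1_ne hy0 hy)) hw htr ⟨hy0, hy, hyQ, hyR⟩ halg hfg
  refine ⟨C.R_hom, C.R_notMem, ?_, h2, fun f hf hR => C.picard hp hC hf hR,
    fun f hf z => C.brody hp hC hf z, ?_⟩
  · intro K _ _ w y hw hy
    have hfg : Algebra.EssFiniteType ℂ K := by
      have h3 : (⊤ : IntermediateField ℂ K).FG := by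
        rw [← hy.sub.gen]
        refine IntermediateField.fg_adjoin_of_finite ?_
        refine Set.Finite.subset (Set.finite_range
          fun ij : Fin (n + 1) × Fin (n + 1) => y ij.1 / y ij.2) ?_
        rintro _ ⟨i, j, _, rfl⟩
        exact ⟨(i, j), rfl⟩
      exact (IntermediateField.fg_top_iff).1 h3
    have halg : Algebra.IsAlgebraic (coords ℂ y) K := by
      rw [hy.sub.gen]
      exact ⟨fun x => isAlgebraic_algebraMap
        (⟨x, IntermediateField.mem_top⟩ : (⊤ : IntermediateField ℂ K))⟩
    exact h2 K w y hw hy.sub.dim hfg halg hy.sub.ne hy.sub.mem hy.sub.off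
      fun h0 => C.R_notMem (hy.mem _ C.R_hom h0)
  · intro g Z φ hZ hφ hX hnc z hz
    exact thin_map (fun f hf z => C.brody hp hC hf z) hZ hφ hX hnc hz

end Pool.Agent.Results.MP_160ed4_ag.CofactorRelations
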