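import Pool.Agent.R869.LEnd

/-!
MP_160ed4_ag, Q1: the five conditions of the generalised Green-Griffiths-Lang conjecture for log
Calabi-Yau and log Fano pairs of weighted complete intersections with nonempty boundary: none of
them holds.

The function-field language of the starting repository is used: `FunField p Q K v y`
(`Pool/Agent/TH143/GT/Fin.lean`): `K` is the function field and `y` the generic point of the
quasi-projective variety `X` in `P^n` with the ideal `p` and the boundary `Q = 0`; `SubVarP`
(`Pool/Agent/W603/GR/Main.lean`): `K` is the function field and `y` the generic point of a closed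
subvariety of `X`, of dimension `v`; `LogGeneralType ℂ K v (OffQ Q q y)`
(`Pool/Agent/W602/GT/Defs.lean`, `Pool/Agent/W603/GR/Main.lean`): the varieties with function field
`K` and with boundary over `Q = 0` are of log general type; `PCurve`, `EntireCurve`
(`Pool/Agent/W603/BP/RMain.lean`): the holomorphic maps from the punctured disc to `X`, and the
nonconstant holomorphic maps from the complex line to `X`; `Extends`
(`Pool/Agent/W603/BP/Extn.lean`): the map extends to a holomorphic map from the disc to `P^n`. `WDeg`
is defined in `Pool/Agent/R869/LCurve.lean`, `Pres` in `Pool/Agent/R869/LGm.lean`, `GmCurve` in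
`Pool/Agent/R869/LParam.lean`, `closureIdeal` in `Pool/Agent/R869/LEnd.lean`.
-/

set_option autoImplicit false

namespace Pool.Agent.Results.MP_160ed4_ag.NonpositivePairs

open MvPolynomial Metric Set Pool.Agent.W602.GT Pool.Agent.W603.BP Pool.Agent.W603.BPR
  Pool.Agent.W603.GR Pool.Agent.W603.PV Pool.Agent.TH143.GT Pool.Agent.R869

/-- All data occur: the closure of the image, off the boundary, of a component of the affine variety
`F = 0` under the map given by polynomials `Y j`. -/
theorem presentation {m n c : ℕ} {w : Fin m → ℕ} {F : Fin c → MvPolynomial (Fin m) ℂ}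
    {e : Fin c → ℕ} {G : MvPolynomial (Fin m) ℂ} {d : ℕ} {Q : MvPolynomial (Fin (n + 1)) ℂ} {q : ℕ}
    (P : Ideal (MvPolynomial (Fin m) ℂ)) (hP : P ∈ (Ideal.span (Set.range F)).minimalPrimes)
    (Y : Fin (n + 1) → MvPolynomial (Fin m) ℂ) (D ε : ℕ) (hF : ∀ j, WDeg w (F j) (e j))
    (hG : WDeg w G d) (hY : ∀ j, WDeg w (Y j) D) (h1 : ∃ j, Y j = 1)
    (hp : ∀ i, ∃ j r, 0 < r ∧ Y j = X i ^ r) (hQ : Q.IsHomogeneous q) (hε : 0 < ε)
    (hd : ε * d = q * D) (hQY : ∃ b : ℂ, b ≠ 0 ∧ aeval Y Q - C b * G ^ ε ∈ P) (hGP : G ∉ P) :
    ∃ A : Pres w F e G d (closureIdeal P Y) Q q, A.P = P ∧ A.Y = Y :=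
  ⟨{  P := P
      Y := Y
      D := D
      ε := ε
      degF := hF
      degG := hG
      degY := hY
      comp := hP
      one := h1
      pows := hp
      mem := mem_closureIdeal P Y
      homQ := hQ
      posε := hε
      degQ := hd
      pull := hQY
      off := hGP }, rfl, rfl⟩

/-- The complement in `P^n` of any hypersurface `Q = 0` of degree `d` (all weights are `1`, and there
are no equations). -/
theorem projectiveSpace {n : ℕ} {Q : MvPolynomial (Fin (n + 1)) ℂ} {d : ℕ}
    (hQ : Q.IsHomogeneous d) (hQ0 : Q ≠ 0) :
    Nonempty (Pres (fun _ : Fin n => 1) (fun j : Fin 0 => j.elim0) (fun j : Fin 0 => j.elim0)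
      (aeval (Fin.cons 1 X : Fin (n + 1) → MvPolynomial (Fin n) ℂ) Q) d
      (⊥ : Ideal (MvPolynomial (Fin (n + 1)) ℂ)) Q d) := by
  classical
  set Y : Fin (n + 1) → MvPolynomial (Fin n) ℂ := Fin.cons 1 X with hY
  -- forms are determined by their restriction to the affine chart
  have hinj : ∀ (H : MvPolynomial (Fin (n + 1)) ℂ) (i : ℕ), H.IsHomogeneous i →
      aeval Y H = 0 → H = 0 := by
    intro H i hH h0
    have h1 : X 0 * H = 0 := by
      apply MvPolynomial.funext
      intro x
      rw [map_mul, eval_X, map_zero]
      by_cases hx : x 0 = 0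
      · rw [hx, zero_mul]
      · have h2 := aeval_scaleR hH (fun j => x j / x 0) (x 0)
        have h3 : (fun j => x 0 * (x j / x 0)) = x := by
          funext j
          field_simp
        rw [h3] at h2
        have h4 : aeval (fun j => x j / x 0) H = (0 : ℂ) := by
          have h5 := MvPolynomial.comp_aeval_apply (f := Y)
            (aeval (fun j : Fin n => x j.succ / x 0) : MvPolynomial (Fin n) ℂ →ₐ[ℂ] ℂ) H
          rw [h0, map_zero] at h5
          have h6 : (fun j => (aeval (fun j : Fin n => x j.succ / x 0) :
              MvPolynomial (Fin n) ℂ →ₐ[ℂ] ℂ) (Y j)) = fun j => x j / x 0 := by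
            funext j
            refine Fin.cases ?_ (fun j => ?_) j
            · rw [hY, Fin.cons_zero, map_one, div_self hx]
            · rw [hY, Fin.cons_succ, aeval_X]
          rw [h6] at h5
          exact h5.symm
        rw [h4, mul_zero] at h2
        change x 0 * eval x H = 0
        have h7 : eval x H = 0 := h2
        rw [h7, mul_zero]
    exact (mul_eq_zero.1 h1).resolve_left (X_ne_zero 0)
  have hdegY : ∀ j, WDeg (fun _ : Fin n => 1) (Y j) 1 := by
    intro j
    refine Fin.cases ?_ (fun j => ?_) j
    · rw [hY, Fin.cons_zero]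
      intro α hα
      have : α = 0 := by
        by_contra h
        rw [mem_support_iff] at hα
        exact hα (by rw [← C_1, coeff_C, if_neg (Ne.symm h)])
      rw [this]
      simp
    · rw [hY, Fin.cons_succ]
      intro α hα
      rw [support_X, Finset.mem_singleton] at hα
      rw [hα]
      simp [Finsupp.single_apply]
  have hdegQ : WDeg (fun _ : Fin n => 1) (aeval Y Q) d := by
    -- the total degree of the dehomogenisation
    have h1 : (aeval Y Q).totalDegree ≤ d := by
      rw [aeval_def, eval₂_eq']
      refine totalDegree_finsetSum_le fun α hα => ?_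
      refine (totalDegree_mul _ _).trans ?_
      have h2 : ((algebraMap ℂ (MvPolynomial (Fin n) ℂ)) (coeff α Q)).totalDegree = 0 := by
        rw [algebraMap_eq, totalDegree_C]
      rw [h2, zero_add]
      refine (totalDegree_finsetProd _ _).trans ?_
      have h3 : ∑ a, α a = d := by
        have := hQ (mem_support_iff.1 hα)
        rw [← this, Finsupp.weight_apply, Finsupp.sum_fintype _ _ (by simp)]
        simp
      rw [← h3]
      refine Finset.sum_le_sum fun a _ => ?_
      refine (totalDegree_pow _ _).trans ?_
      have h4 : (Y a).totalDegree ≤ 1 := by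
        refine Fin.cases ?_ (fun j => ?_) a
        · rw [hY, Fin.cons_zero, totalDegree_one]
          exact Nat.zero_le _
        · rw [hY, Fin.cons_succ, totalDegree_X]
      calc α a * (Y a).totalDegree ≤ α a * 1 := Nat.mul_le_mul_left _ h4
        _ = α a := mul_one _
    intro α hα
    have h2 := le_totalDegree hα
    rw [Finsupp.sum_fintype _ _ (by simp)] at h2
    simp only [mul_one]
    exact h2.trans h1
  refine ⟨{ P := ⊥
            Y := Y
            D := 1
            ε := 1
            degF := fun j => j.elim0
            degG := hdegQ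
            degY := hdegY
            comp := ?_
            one := ⟨0, rfl⟩
            pows := fun i => ⟨i.succ, 1, one_pos, by rw [hY, Fin.cons_succ, pow_one]⟩
            mem := ?_
            homQ := hQ
            posε := one_pos
            degQ := by ring
            pull := ⟨1, one_ne_zero, by simp⟩
            off := ?_ }⟩
  · have h1 : Ideal.span (Set.range (fun j : Fin 0 => (j.elim0 : MvPolynomial (Fin n) ℂ))) = ⊥ := by
      rw [Set.range_eq_empty, Ideal.span_empty]
    rw [h1]
    exact ⟨⟨Ideal.isPrime_bot, le_refl _⟩, fun _ _ _ => bot_le⟩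
  · intro H
    rw [Ideal.mem_bot]
    constructor
    · intro h i
      rw [h, map_zero, map_zero]
      exact Ideal.zero_mem _
    · intro h
      rw [← sum_homogeneousComponent H]
      refine Finset.sum_eq_zero fun i _ => ?_
      exact hinj _ i (homogeneousComponent_isHomogeneous i H) ((Ideal.mem_bot).1 (h i))
  · intro h
    exact hQ0 (hinj Q d hQ ((Ideal.mem_bot).1 h))

/-- Let the variables `x_1, ..., x_m` have the weights `w i`. Let `V` be an irreducible component of
the affine variety `F_1 = ... = F_c = 0`, where `F_j` has weighted degree at most `e j`, and let `G`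
be a polynomial of weighted degree at most `d` which does not vanish on `V`. So `V` is an affine
chart of (a component of) a weighted complete intersection of degrees `e j` in the weighted
projective space `P(1, w_1, ..., w_m)`, with the boundary `G = 0` of degree `d`; no assumption is
made on the singularities. Suppose that the degree `∑ e j + d - 1 - ∑ w i` of the log canonical class
of this pair is nonpositive, if `d ≥ 2`, and that `∑ e j < ∑ w i`, if `d ≤ 1`; this is the assumption
`hcount`. So the case `d ≥ 2` includes all log Calabi-Yau and log Fano pairs of this kind.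

Let `X` in `P^n` be the image of this pair under a map given by polynomials `Y j`, as in `Pres`, for
example an embedding of the weighted projective space. Then:

(0) through all points of an open set of `X` there are nonconstant maps from the multiplicative group
to `X`;

(1) `X` is not of log general type;

(2) the closed subvarieties of `X` of positive dimension which are not of log general type,

(3) the images of the holomorphic maps from the punctured disc with an essential singularity,

(4) the images of the nonconstant holomorphic maps from the complex line,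

(5) the images of the nonconstant morphisms from the multiplicative group

have a union which is Zariski-dense in `X`: no form `R` that does not vanish on `X` vanishes on all
of them. So all five conditions fail for `X`. -/
theorem result {m n c : ℕ} {w : Fin m → ℕ} {F : Fin c → MvPolynomial (Fin m) ℂ}
    {e : Fin c → ℕ} {G : MvPolynomial (Fin m) ℂ} {d : ℕ} {p : Ideal (MvPolynomial (Fin (n + 1)) ℂ)}
    {Q : MvPolynomial (Fin (n + 1)) ℂ} {q : ℕ} (A : Pres w F e G d p Q q)
    (hcount : ∑ j, e j + d < ∑ i, w i + min d 2) :
    (∃ s ∉ A.P, ∀ x : Fin m → ℂ, (∀ j, eval x (F j) = 0) → eval x G ≠ 0 → eval x s ≠ 0 →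
      ∃ (W : Fin (n + 1) → Polynomial ℂ) (l : ℕ) (b : ℂ), GmCurve p Q W l ∧ b ≠ 0 ∧
        ∀ j, (W j).eval 1 = b * eval x (A.Y j)) ∧
    (∀ (K : Type) [Field K] [Algebra ℂ K] (v : ℕ) (y : Fin (n + 1) → K),
      FunField p Q K v y → ¬ LogGeneralType ℂ K v (OffQ Q q y)) ∧
    ∀ R : MvPolynomial (Fin (n + 1)) ℂ, IsForm R → R ∉ p →
      (∃ (K : Type) (_ : Field K) (_ : Algebra ℂ K) (v : ℕ) (y : Fin (n + 1) → K), 1 ≤ v ∧
        SubVarP p Q K v y ∧ ¬ LogGeneralType ℂ K v (OffQ Q q y) ∧
        Pool.Agent.W602.GT.val y R ≠ 0) ∧
      (∃ f, PCurve p Q f ∧ ¬ Extends f ∧ ∃ z ∈ ball (0 : ℂ) 1 \ {0}, eval (f z) R ≠ 0) ∧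
      (∃ f, EntireCurve p Q f ∧ ∃ z, eval (f z) R ≠ 0) ∧
      ∃ (W : Fin (n + 1) → Polynomial ℂ) (l : ℕ), GmCurve p Q W l ∧
        eval (fun j => (W j).eval 1) R ≠ 0 := by
  refine ⟨?_, fun K _ _ v y hy => A.not_lgt hcount hy, ?_⟩
  · obtain ⟨s, hs, h⟩ := A.curve hcount
    exact ⟨s, hs, fun x hx hG hs' => h ℂ x hx hG hs'⟩
  · intro R hR hRp
    obtain ⟨W, l, hW, hWR⟩ := A.exists_gm hcount hR hRp
    refine ⟨?_, ?_, ?_, W, l, hW, hWR⟩
    · obtain ⟨K, _, _, v, y, hv, hsub, hnl, hval⟩ := hW.subvar A.homog A.homQ
      exact ⟨K, _, _, v, y, hv, hsub, hnl, hval R hR hWR⟩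
    · refine ⟨_, hW.punctured.1, hW.punctured.2, (2 * Real.pi * Complex.I)⁻¹, ?_, ?_⟩
      · have h0 : (2 * Real.pi * Complex.I : ℂ) ≠ 0 := Complex.two_pi_I_ne_zero
        refine ⟨?_, inv_ne_zero h0⟩
        rw [mem_ball_zero_iff, norm_inv, norm_mul, norm_mul, Complex.norm_I, mul_one,
          Complex.norm_real, Complex.norm_ofNat, Real.norm_eq_abs, abs_of_pos Real.pi_pos]
        apply inv_lt_one_of_one_lt₀
        have := Real.pi_gt_three
        linarith
      · simp only [inv_inv, Complex.exp_two_pi_mul_I]
        exact hWR
    · exact ⟨_, hW.entire, 0, by simpa using hWR⟩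

end Pool.Agent.Results.MP_160ed4_ag.NonpositivePairs
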