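import Pool.Agent.R871.SG.LaurC

/-!
MP_160ed4_ag, Q1, for holomorphic maps of slow growth from the punctured plane to varieties which are
projective over an affine variety: such maps are limits of algebraic maps from the multiplicative
group, and they lie in a closed subset `Z` if and only if these algebraic maps do.
-/

set_option autoImplicit false

namespace Pool.Agent.Results.MP_160ed4_ag.SlowGrowthGm

open MvPolynomial Pool.Agent.R871.SG

/-- Let `V = {F = 0}` be a closed subvariety of `ℙⁿ × ℂᵐ`; for instance, `V` is projective, or affine,
or the complement of a hypersurface section in a projective variety. Let `K` be a closed subset of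
`ℙⁿ × ℂᵐ` in the classical topology; for instance, everything or a point. There is a function `φ` with
`φ r / log r → ∞` for `r → ∞` which has the following properties.

(1) Let `f` be a holomorphic map from the punctured plane `ℂ \ {0}` to `V` with `f w ∈ K`, given by
homogeneous coordinates without common zeros and by affine coordinates, such that
`log ‖f z‖ ≤ φ r` for `1 / r ≤ ‖z‖ ≤ r`, for arbitrarily large `r`. Then `f` is a limit of algebraic
maps from the multiplicative group to `V` which are at `w` in `K`, uniformly on compact sets.

(2) For every closed subvariety `Z = {G = 0}`, all nonconstant algebraic maps from the multiplicative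
group to `V` which meet `K` have their image in `Z`, if and only if all nonconstant holomorphic maps
from the punctured plane to `V` which meet `K`, and are of such growth, have their image in `Z`. -/
theorem result {n m : ℕ} {ι : Type} (F : ι → Pol2 n m) (hF : ∀ i, ∃ d, (F i).IsHomogeneous d)
    (K : Set ((Fin (n + 1) → ℂ) × (Fin m → ℂ))) (hK : IsClosed K)
    (hKs : ∀ (a : ℂ), ∀ p ∈ K, (a • p.1, p.2) ∈ K) :
    ∃ φ : ℝ → ℝ, Grows φ ∧ LimitsOfAlgL F K φ ∧
      ∀ (κ : Type) (G : κ → Pol2 n m), (∀ k, ∃ d, (G k).IsHomogeneous d) →
        (AlgInL F K G ↔ SlowInL F K φ G) := by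
  obtain ⟨φ, hφ, h⟩ := limits_algL F hF hK hKs
  exact ⟨φ, hφ, h, fun κ G hG => slow_iffL hφ h hG⟩

end Pool.Agent.Results.MP_160ed4_ag.SlowGrowthGm
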